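import Pool.Agent.H24.SCG.Base

/-! The homomorphism `PGL(2,F) → SL(3,F)` (symmetric square, scaled). -/

namespace Pool.Agent.H84.SCG

open Matrix Pool.SCG

variable {F : Type*} [Field F]

/-- the symmetric square of a two by two matrix -/
def Sy (a b c d : F) : Matrix (Fin 3) (Fin 3) F :=
  !![a ^ 2, a * b, b ^ 2 * 2⁻¹; 2 * a * c, a * d + b * c, b * d; 2 * c ^ 2, 2 * c * d, d ^ 2]

theorem sy_mul (h2 : (2 : F) ≠ 0) (a b c d a' b' c' d' : F) : Sy a b c d * Sy a' b' c' d' =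
    Sy (a * a' + b * c') (a * b' + b * d') (c * a' + d * c') (c * b' + d * d') := by
  ext i j
  fin_cases i <;> fin_cases j <;>
    simp [Sy, Matrix.mul_apply, Fin.sum_univ_three] <;> field_simp <;> ring

theorem sy_det (h2 : (2 : F) ≠ 0) (a b c d : F) : (Sy a b c d).det = (a * d - b * c) ^ 3 := by
  simp [Sy, Matrix.det_fin_three]
  field_simp
  ring

theorem sy_one : Sy (1 : F) 0 0 1 = 1 := by
  ext i j
  fin_cases i <;> fin_cases j <;> simp [Sy]

/-- the scaled symmetric square -/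
def Ph (g : GL (Fin 2) F) : Matrix (Fin 3) (Fin 3) F :=
  (g.1 0 0 * g.1 1 1 - g.1 0 1 * g.1 1 0)⁻¹ • Sy (g.1 0 0) (g.1 0 1) (g.1 1 0) (g.1 1 1)

theorem det_ne (g : GL (Fin 2) F) : g.1 0 0 * g.1 1 1 - g.1 0 1 * g.1 1 0 ≠ 0 := by
  have h := (Matrix.GeneralLinearGroup.det g).ne_zero
  have e : ((Matrix.GeneralLinearGroup.det g : Fˣ) : F) = g.1.det := rfl
  rw [e, Matrix.det_fin_two] at h
  exact h

theorem ph_det (h2 : (2 : F) ≠ 0) (g : GL (Fin 2) F) : (Ph g).det = 1 := by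
  have h := det_ne g
  unfold Ph
  rw [Matrix.det_smul, sy_det h2]
  simp only [Fintype.card_fin]
  rw [← mul_pow, inv_mul_cancel₀ h, one_pow]

theorem ph_mul (h2 : (2 : F) ≠ 0) (g h : GL (Fin 2) F) : Ph (g * h) = Ph g * Ph h := by
  unfold Ph
  rw [Matrix.smul_mul, Matrix.mul_smul, smul_smul, sy_mul h2, ← mul_inv]
  have e : ∀ i j, (g * h).1 i j = g.1 i 0 * h.1 0 j + g.1 i 1 * h.1 1 j := by
    intro i j
    show ((g : Matrix (Fin 2) (Fin 2) F) * (h : Matrix (Fin 2) (Fin 2) F)) i j = _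
    rw [Matrix.mul_apply, Fin.sum_univ_two]
  rw [e, e, e, e]
  congr 2
  ring

theorem ph_one : Ph (1 : GL (Fin 2) F) = 1 := by
  unfold Ph
  have e : (1 : GL (Fin 2) F).1 = 1 := rfl
  rw [e]
  simp [sy_one]

theorem phi_thm : PHIStmt := by
  intro F _ h2
  refine ⟨{ toFun := fun g => ⟨Ph g, ph_det h2 g⟩
            map_one' := Subtype.ext ph_one
            map_mul' := fun g h => Subtype.ext (ph_mul h2 g h) }, ?_, ?_⟩
  · intro g a b c d hg
    show Ph g = _
    unfold Ph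
    rw [show g.1 = !![a, b; c, d] from hg]
    simp [Sy]
  · intro g q hq
    symm
    set Φg : SL3 F := ⟨Ph g, ph_det h2 g⟩ with hΦ
    have hi : Is (inn Φg) false (Ph g) := ⟨rfl, rfl⟩
    show inn Φg * q = q * inn Φg
    rw [comm_inner_outer_iff hi hq]
    have hne := det_ne g
    unfold Ph
    rw [Matrix.transpose_smul, Matrix.smul_mul, Matrix.smul_mul, Matrix.mul_smul, smul_smul]
    set a := g.1 0 0
    set b := g.1 0 1
    set c := g.1 1 0
    set d := g.1 1 1
    have key : (Sy a b c d).transpose * Q0 F * Sy a b c d = ((a * d - b * c) ^ 2) • Q0 F := by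
      ext i j
      fin_cases i <;> fin_cases j <;>
        simp [Sy, Q0, Matrix.mul_apply, Fin.sum_univ_three] <;> field_simp <;> ring
    rw [key, smul_smul]
    have : (a * d - b * c)⁻¹ * (a * d - b * c)⁻¹ * (a * d - b * c) ^ 2 = 1 := by
      field_simp
    rw [this, one_smul]

end Pool.Agent.H84.SCG
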